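import Pool.Agent.Helper13.DL.DL1
import Pool.Agent.Helper90.DL.Transfer

/-!
# DL-12: Hoelder type lemmas for the bilinear inequalities (helper16)
-/

set_option autoImplicit false

namespace Pool.Agent.DL

open MeasureTheory Finset

theorem Bil.mono {k n : ℕ} {C : ℝ} {A B N : ℕ} {M M' : ℝ} (h : Bil k n C A B N M)
    (hM : M ≤ M') : Bil k n C A B N M' := by
  intro t t' h1 h2 h3 f g hf hg
  refine (h t t' h1 h2 h3 f g hf hg).trans ?_
  gcongr

theorem two_tri (n : ℕ) : 2 * tri n = n * (n + 1) :=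
  Nat.two_mul_div_two_of_even (Nat.even_mul_succ_self n)

theorem tri_mono {n k : ℕ} (h : n ≤ k) : tri n ≤ tri k := by
  have h1 := two_tri n
  have h2 := two_tri k
  have : n * (n + 1) ≤ k * (k + 1) := Nat.mul_le_mul h (by omega)
  omega

theorem tri_pos {k : ℕ} (hk : 1 ≤ k) : 1 ≤ tri k := by
  have := tri_mono hk
  have h1 : tri 1 = 1 := rfl
  omega

theorem tri_cast (n : ℕ) : (tri n : ℝ) = n * (n + 1) / 2 := by
  have h := two_tri n
  have h2 : (2 : ℝ) * tri n = n * (n + 1) := by exact_mod_cast h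
  linarith

section
variable {k : ℕ}

theorem sum_continuous {W : ℕ → Set (Fin k → ℝ)} {f : ℕ → (Fin k → ℝ) → ℂ} {m : ℕ}
    (hf : ∀ j : ℕ, j < m → Spec (W j) (f j)) : Continuous fun x => ∑ j ∈ range m, f j x :=
  continuous_finsetSum _ fun j hj => (hf j (mem_range.1 hj)).continuous

/-- interpolation of two bilinear inequalities -/
theorem bil_interp (F G : (Fin k → ℝ) → ℂ) (hF : Continuous F) (hG : Continuous G)
    (a b a₀ b₀ a₁ b₁ : ℕ) (θ M₀ M₁ : ℝ) (S T : ENNReal) (hθ0 : 0 < θ) (hθ1 : θ < 1)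
    (ha : (a : ℝ) = (1 - θ) * a₀ + θ * a₁) (hb : (b : ℝ) = (1 - θ) * b₀ + θ * b₁)
    (hM₀ : 0 ≤ M₀) (hM₁ : 0 ≤ M₁)
    (h0 : ∫⁻ x, ‖F x‖ₑ ^ (2 * a₀) * ‖G x‖ₑ ^ (2 * b₀) ≤ ENNReal.ofReal M₀ * S ^ a₀ * T ^ b₀)
    (h1 : ∫⁻ x, ‖F x‖ₑ ^ (2 * a₁) * ‖G x‖ₑ ^ (2 * b₁) ≤ ENNReal.ofReal M₁ * S ^ a₁ * T ^ b₁) :
    ∫⁻ x, ‖F x‖ₑ ^ (2 * a) * ‖G x‖ₑ ^ (2 * b) ≤
      ENNReal.ofReal (M₀ ^ (1 - θ) * M₁ ^ θ) * S ^ a * T ^ b := by
  have hθ : 0 ≤ 1 - θ := by linarith
  have key := holder_interp volume (fun x => ‖F x‖ₑ) (fun x => ‖G x‖ₑ)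
    hF.enorm.measurable hG.enorm.measurable (fun x => enorm_ne_top) (fun x => enorm_ne_top)
    (2 * a) (2 * b) (2 * a₀) (2 * b₀) (2 * a₁) (2 * b₁) θ hθ0 hθ1
    (by push_cast; rw [ha]; ring) (by push_cast; rw [hb]; ring)
  refine key.trans ((mul_le_mul' (ENNReal.rpow_le_rpow h0 hθ)
    (ENNReal.rpow_le_rpow h1 hθ0.le)).trans (le_of_eq ?_))
  have hS : S ^ a = (S ^ a₀) ^ (1 - θ) * (S ^ a₁) ^ θ := by
    rw [← ENNReal.rpow_natCast, ← ENNReal.rpow_natCast, ← ENNReal.rpow_natCast,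
      ← ENNReal.rpow_mul, ← ENNReal.rpow_mul, ← ENNReal.rpow_add_of_nonneg _ _ (by positivity)
      (by positivity), ha]
    congr 1
    ring
  have hT : T ^ b = (T ^ b₀) ^ (1 - θ) * (T ^ b₁) ^ θ := by
    rw [← ENNReal.rpow_natCast, ← ENNReal.rpow_natCast, ← ENNReal.rpow_natCast,
      ← ENNReal.rpow_mul, ← ENNReal.rpow_mul, ← ENNReal.rpow_add_of_nonneg _ _ (by positivity)
      (by positivity), hb]
    congr 1
    ring
  rw [hS, hT, ENNReal.ofReal_mul (by positivity), ← ENNReal.ofReal_rpow_of_nonneg hM₀ hθ,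
    ← ENNReal.ofReal_rpow_of_nonneg hM₁ hθ0.le, ENNReal.mul_rpow_of_nonneg _ _ hθ,
    ENNReal.mul_rpow_of_nonneg _ _ hθ, ENNReal.mul_rpow_of_nonneg _ _ hθ0.le,
    ENNReal.mul_rpow_of_nonneg _ _ hθ0.le]
  ring

end

theorem bil_holder (k n : ℕ) (hn : 1 ≤ n) (hk : n < k) (C : ℝ) (A B N : ℕ) (M₁ M₂ : ℝ)
    (h1 : 0 ≤ M₁) (h2 : 0 ≤ M₂) (hb1 : Bil k (n - 1) C A B N M₁)
    (hb2 : Bil k (k - n) C B A N M₂) :
    Bil k n C A B N (M₁ ^ (((k : ℝ) - n) / (k - n + 1)) * M₂ ^ (1 / ((k : ℝ) - n + 1))) := by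
  intro t t' ht1 ht2 ht3 f g hf hg
  have hkn : (n : ℝ) < k := by exact_mod_cast hk
  have hd : (0 : ℝ) < (k : ℝ) - n + 1 := by linarith
  have e1 : ((k : ℝ) - n) / (k - n + 1) = 1 - 1 / ((k : ℝ) - n + 1) := by
    field_simp
    ring
  have hr1 : (tri (n - 1) : ℝ) = ((n : ℝ) - 1) * n / 2 := by
    rw [tri_cast, Nat.cast_sub hn]
    push_cast
    ring
  have hr2 : (tri (k - n) : ℝ) = ((k : ℝ) - n) * (k - n + 1) / 2 := by
    rw [tri_cast, Nat.cast_sub hk.le]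
  have hm1 : tri (n - 1) ≤ tri k := tri_mono (by omega)
  have hm2 : tri (k - n) ≤ tri k := tri_mono (by omega)
  have hm3 : tri n ≤ tri k := tri_mono hk.le
  have H1 := hb1 t t' ht1 ht2 ht3 f g hf hg
  have H2 := hb2 t' t ht2 ht1 ht3.symm g f hg hf
  rw [e1]
  refine bil_interp _ _ (sum_continuous hf) (sum_continuous hg) (tri n) (tri k - tri n)
    (tri (n - 1)) (tri k - tri (n - 1)) (tri k - tri (k - n)) (tri (k - n))
    (1 / ((k : ℝ) - n + 1)) M₁ M₂ _ _ (by positivity) ?_ ?_ ?_ h1 h2 H1 ?_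
  · rw [div_lt_one hd]
    linarith
  · rw [Nat.cast_sub hm2, hr1, hr2, tri_cast, tri_cast]
    field_simp
    ring
  · rw [Nat.cast_sub hm1, Nat.cast_sub hm3, hr1, hr2, tri_cast, tri_cast]
    field_simp
    ring
  · calc ∫⁻ x, ‖∑ j ∈ range (2 ^ (N - A)), f j x‖ₑ ^ (2 * (tri k - tri (k - n))) *
          ‖∑ j ∈ range (2 ^ (N - B)), g j x‖ₑ ^ (2 * tri (k - n))
        = ∫⁻ x, ‖∑ j ∈ range (2 ^ (N - B)), g j x‖ₑ ^ (2 * tri (k - n)) *
          ‖∑ j ∈ range (2 ^ (N - A)), f j x‖ₑ ^ (2 * (tri k - tri (k - n))) := by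
          simp only [mul_comm]
      _ ≤ _ := H2
      _ = _ := by ring

theorem bil_zero (k : ℕ) (hk : 1 ≤ k) (C : ℝ) (A B N : ℕ) (hB : B ≤ N) (D : ℝ) (hD : 0 ≤ D)
    (h : DecOn (tri k) (mom k) C 0 1 (N - B) D) : Bil k 0 C A B N (D ^ tri k) := by
  intro t t' ht1 ht2 ht3 f g hf hg
  have hs : 1 ≤ tri k := tri_pos hk
  have h1 := dec_arc hs h t' ((1 / 2) ^ B) (by positivity)
  have e0 : (1 / 2 : ℝ) ^ B / 2 ^ (N - B) = (1 / 2) ^ N := by
    obtain ⟨c, rfl⟩ := Nat.exists_eq_add_of_le hB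
    rw [Nat.add_sub_cancel_left, pow_add, one_div, inv_pow, inv_pow, div_eq_mul_inv]
  have h2 := h1 g (fun j hj => by
    have := hg j hj
    simpa only [e0] using this)
  have ht0 : tri 0 = 0 := rfl
  rw [ht0, Nat.sub_zero]
  simp only [mul_zero, pow_zero, one_mul, mul_one]
  rw [← NN_pow hs, ENNReal.ofReal_pow hD, ← mul_pow]
  exact pow_le_pow_left' h2 _

theorem bil_base (k n : ℕ) (hn : 1 ≤ n) (hk : n < k) (C : ℝ) (A B N : ℕ) (M : ℝ)
    (h1 : 0 ≤ M) (hb1 : Bil k 0 C A B N M) (hb2 : Bil k 0 C B A N M) :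
    Bil k n C A B N M := by
  intro t t' ht1 ht2 ht3 f g hf hg
  have H1 := hb1 t t' ht1 ht2 ht3 f g hf hg
  have H2 := hb2 t' t ht2 ht1 ht3.symm g f hg hf
  have ht0 : tri 0 = 0 := rfl
  rw [ht0, Nat.sub_zero] at H1 H2
  have hkpos : (0 : ℝ) < tri k := by exact_mod_cast tri_pos (by omega : 1 ≤ k)
  have hnpos : (0 : ℝ) < tri n := by exact_mod_cast tri_pos hn
  have hlt : tri n < tri k := by
    have h3 := two_tri n
    have h4 := two_tri k
    have : n * (n + 1) < k * (k + 1) := Nat.mul_lt_mul'' hk (by omega)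
    omega
  have hlt' : (tri n : ℝ) < tri k := by exact_mod_cast hlt
  have key := bil_interp _ _ (sum_continuous hf) (sum_continuous hg) (tri n) (tri k - tri n)
    0 (tri k) (tri k) 0 ((tri n : ℝ) / tri k) M M
    (∑ j ∈ range (2 ^ (N - A)), NN (tri k) (f j)) (∑ j ∈ range (2 ^ (N - B)), NN (tri k) (g j))
    (by positivity) ((div_lt_one hkpos).2 hlt')
    (by field_simp; simp) (by rw [Nat.cast_sub hlt.le]; field_simp; simp) h1 h1 H1
    (by
      calc ∫⁻ x, ‖∑ j ∈ range (2 ^ (N - A)), f j x‖ₑ ^ (2 * tri k) *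
            ‖∑ j ∈ range (2 ^ (N - B)), g j x‖ₑ ^ (2 * 0)
          = ∫⁻ x, ‖∑ j ∈ range (2 ^ (N - B)), g j x‖ₑ ^ (2 * 0) *
            ‖∑ j ∈ range (2 ^ (N - A)), f j x‖ₑ ^ (2 * tri k) := by
            simp only [mul_comm]
        _ ≤ _ := H2
        _ = _ := by ring)
  refine key.trans (le_of_eq ?_)
  congr 3
  rw [← Real.rpow_add_of_nonneg h1 (by
    rw [sub_nonneg, div_le_one hkpos]; exact hlt'.le) (by positivity)]
  rw [sub_add_cancel, Real.rpow_one]

theorem sum_range_split {X : Type} [AddCommMonoid X] (P R : ℕ) (h : ℕ → X) :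
    ∑ j ∈ range (P * R), h j = ∑ i ∈ range P, ∑ j ∈ range R, h (i * R + j) := by
  induction P with
  | zero => simp
  | succ P ih => rw [Nat.succ_mul, sum_range_add, sum_range_succ, ih]

theorem enn_pow_sum {P : ℕ} (hP : 1 ≤ P) (x : ℕ → ENNReal) (m : ℕ) :
    (∑ i ∈ range P, x i) ^ m ≤ (P : ENNReal) ^ m * ∑ i ∈ range P, x i ^ m := by
  obtain ⟨i₀, hi₀, hmax⟩ := exists_max_image (range P) x ⟨0, mem_range.2 hP⟩
  have h1 : ∑ i ∈ range P, x i ≤ P * x i₀ := by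
    have := sum_le_card_nsmul (range P) x (x i₀) hmax
    rwa [card_range, nsmul_eq_mul] at this
  calc (∑ i ∈ range P, x i) ^ m ≤ (P * x i₀) ^ m := pow_le_pow_left' h1 _
    _ = (P : ENNReal) ^ m * x i₀ ^ m := mul_pow _ _ _
    _ ≤ _ := by
      gcongr
      exact single_le_sum (f := fun i => x i ^ m) (fun i _ => zero_le) hi₀

theorem enn_sum_pow (P : ℕ) (x : ℕ → ENNReal) (a : ℕ) :
    ∑ i ∈ range P, x i ^ a ≤ (if a = 0 then (P : ENNReal) else 1) * (∑ i ∈ range P, x i) ^ a := by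
  rcases Nat.eq_zero_or_pos a with rfl | ha
  · simp
  · rw [if_neg (by omega), one_mul]
    obtain ⟨b, rfl⟩ := Nat.exists_eq_succ_of_ne_zero (by omega : a ≠ 0)
    rw [Nat.succ_eq_add_one]
    calc ∑ i ∈ range P, x i ^ (b + 1) ≤ ∑ i ∈ range P, (∑ j ∈ range P, x j) ^ b * x i := by
          apply sum_le_sum
          intro i hi
          rw [pow_succ]
          gcongr
          exact single_le_sum (f := x) (fun i _ => zero_le) hi
      _ = (∑ i ∈ range P, x i) ^ (b + 1) := by rw [← mul_sum, pow_succ]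

theorem enn_kappa {P s a : ℕ} (hP : 1 ≤ P) (hs : 1 ≤ s) (ha : a ≤ s) :
    (P : ENNReal) ^ (2 * a) * (if a = 0 then (P : ENNReal) else 1) ≤ (P : ENNReal) ^ (2 * s) := by
  have hP' : (1 : ENNReal) ≤ P := by exact_mod_cast hP
  split_ifs with h
  · rw [h, mul_zero, pow_zero, one_mul]
    calc (P : ENNReal) = (P : ENNReal) ^ 1 := (pow_one _).symm
      _ ≤ _ := pow_le_pow_right₀ hP' (by omega)
  · rw [mul_one]
    exact pow_le_pow_right₀ hP' (by omega)

theorem bil_split (k n : ℕ) (hk : 1 ≤ k) (hn : n ≤ k) (C : ℝ) (A A' B B' N : ℕ) (hA : A ≤ A')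
    (hA' : A' ≤ N) (hB : B ≤ B') (hB' : B' ≤ N) (M : ℝ) (hM : 0 ≤ M) (h : Bil k n C A' B' N M) :
    Bil k n C A B N (2 ^ (2 * tri k * ((A' - A) + (B' - B))) * M) := by
  intro t t' ht1 ht2 ht3 f g hf hg
  have hs : 1 ≤ tri k := tri_pos hk
  have hm : tri n ≤ tri k := tri_mono hn
  set s := tri k with hsdef
  set a := tri n with hadef
  set b := s - a with hbdef
  set P := 2 ^ (A' - A) with hP
  set Q := 2 ^ (B' - B) with hQ
  set R := 2 ^ (N - A') with hR
  set U := 2 ^ (N - B') with hU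
  have hP1 : 1 ≤ P := Nat.one_le_two_pow
  have hQ1 : 1 ≤ Q := Nat.one_le_two_pow
  have e1 : 2 ^ (N - A) = P * R := by rw [hP, hR, ← pow_add]; congr 1; omega
  have e2 : 2 ^ (N - B) = Q * U := by rw [hQ, hU, ← pow_add]; congr 1; omega
  have half : ∀ x y : ℕ, x ≤ y → (2 : ℝ) ^ (y - x) * (1 / 2) ^ y = (1 / 2) ^ x := by
    intro x y hxy
    obtain ⟨c, rfl⟩ := Nat.exists_eq_add_of_le hxy
    rw [Nat.add_sub_cancel_left, pow_add, mul_comm, mul_assoc, ← mul_pow]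
    norm_num
  have hPr : (P : ℝ) * (1 / 2) ^ A' = (1 / 2) ^ A := by
    rw [hP]; push_cast; exact half A A' hA
  have hQr : (Q : ℝ) * (1 / 2) ^ B' = (1 / 2) ^ B := by
    rw [hQ]; push_cast; exact half B B' hB
  have hRr : (R : ℝ) * (1 / 2) ^ N = (1 / 2) ^ A' := by
    rw [hR]; push_cast; exact half A' N hA'
  have hUr : (U : ℝ) * (1 / 2) ^ N = (1 / 2) ^ B' := by
    rw [hU]; push_cast; exact half B' N hB'
  rw [e1] at hf ⊢
  rw [e2] at hg ⊢
  have hpA : (0 : ℝ) < (1 / 2) ^ A' := by positivity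
  have hpB : (0 : ℝ) < (1 / 2) ^ B' := by positivity
  have key : ∀ i < P, ∀ l < Q,
      ∫⁻ x, ‖∑ j ∈ range R, f (i * R + j) x‖ₑ ^ (2 * a) *
        ‖∑ j ∈ range U, g (l * U + j) x‖ₑ ^ (2 * b) ≤
      ENNReal.ofReal M * (∑ j ∈ range R, NN s (f (i * R + j))) ^ a *
        (∑ j ∈ range U, NN s (g (l * U + j))) ^ b := by
    intro i hi l hl
    have hi' : ((i : ℝ) + 1) * (1 / 2) ^ A' ≤ (1 / 2) ^ A := by
      rw [← hPr]
      have : ((i : ℝ) + 1) ≤ P := by exact_mod_cast hi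
      gcongr
    have hl' : ((l : ℝ) + 1) * (1 / 2) ^ B' ≤ (1 / 2) ^ B := by
      rw [← hQr]
      have : ((l : ℝ) + 1) ≤ Q := by exact_mod_cast hl
      gcongr
    have hi0 : 0 ≤ (i : ℝ) * (1 / 2) ^ A' := by positivity
    have hl0 : 0 ≤ (l : ℝ) * (1 / 2) ^ B' := by positivity
    rw [add_mul, one_mul] at hi' hl'
    refine h (t + i * (1 / 2) ^ A') (t' + l * (1 / 2) ^ B') (by linarith) (by linarith) ?_
      (fun j => f (i * R + j)) (fun j => g (l * U + j)) ?_ ?_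
    · rcases ht3 with h3 | h3
      · left; linarith
      · right; linarith
    · intro j hj
      have hj2 : i * R + j < P * R := by
        calc i * R + j < i * R + R := by omega
          _ = (i + 1) * R := by ring
          _ ≤ P * R := Nat.mul_le_mul_right _ hi
      have h4 := hf (i * R + j) hj2
      have e3 : t + ((i * R + j : ℕ) : ℝ) * (1 / 2) ^ N = t + i * (1 / 2) ^ A' + j * (1 / 2) ^ N := by
        rw [← hRr]
        push_cast
        ring
      simp only [e3] at h4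
      exact h4
    · intro j hj
      have hj2 : l * U + j < Q * U := by
        calc l * U + j < l * U + U := by omega
          _ = (l + 1) * U := by ring
          _ ≤ Q * U := Nat.mul_le_mul_right _ hl
      have h4 := hg (l * U + j) hj2
      have e3 : t' + ((l * U + j : ℕ) : ℝ) * (1 / 2) ^ N = t' + l * (1 / 2) ^ B' + j * (1 / 2) ^ N := by
        rw [← hUr]
        push_cast
        ring
      simp only [e3] at h4
      exact h4
  have hcf : ∀ i < P, Measurable fun x => ‖∑ j ∈ range R, f (i * R + j) x‖ₑ ^ (2 * a) := by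
    intro i hi
    refine (Continuous.enorm ?_).measurable.pow_const _
    refine continuous_finsetSum _ fun j hj => ?_
    have hj2 : i * R + j < P * R := by
      have := mem_range.1 hj
      calc i * R + j < i * R + R := by omega
        _ = (i + 1) * R := by ring
        _ ≤ P * R := Nat.mul_le_mul_right _ hi
    exact (hf _ hj2).continuous
  have hcg : ∀ l < Q, Measurable fun x => ‖∑ j ∈ range U, g (l * U + j) x‖ₑ ^ (2 * b) := by
    intro l hl
    refine (Continuous.enorm ?_).measurable.pow_const _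
    refine continuous_finsetSum _ fun j hj => ?_
    have hj2 : l * U + j < Q * U := by
      have := mem_range.1 hj
      calc l * U + j < l * U + U := by omega
        _ = (l + 1) * U := by ring
        _ ≤ Q * U := Nat.mul_le_mul_right _ hl
    exact (hg _ hj2).continuous
  have pt : ∀ x, ‖∑ j ∈ range (P * R), f j x‖ₑ ^ (2 * a) * ‖∑ j ∈ range (Q * U), g j x‖ₑ ^ (2 * b) ≤
      (P : ENNReal) ^ (2 * a) * (Q : ENNReal) ^ (2 * b) *
        ∑ i ∈ range P, ∑ l ∈ range Q, ‖∑ j ∈ range R, f (i * R + j) x‖ₑ ^ (2 * a) *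
          ‖∑ j ∈ range U, g (l * U + j) x‖ₑ ^ (2 * b) := by
    intro x
    rw [sum_range_split P R (fun j => f j x), sum_range_split Q U (fun j => g j x)]
    have h5 : ‖∑ i ∈ range P, ∑ j ∈ range R, f (i * R + j) x‖ₑ ^ (2 * a) ≤
        (P : ENNReal) ^ (2 * a) * ∑ i ∈ range P, ‖∑ j ∈ range R, f (i * R + j) x‖ₑ ^ (2 * a) :=
      (pow_le_pow_left' (enorm_sum_le _ _) _).trans (enn_pow_sum hP1 _ _)
    have h6 : ‖∑ i ∈ range Q, ∑ j ∈ range U, g (i * U + j) x‖ₑ ^ (2 * b) ≤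
        (Q : ENNReal) ^ (2 * b) * ∑ i ∈ range Q, ‖∑ j ∈ range U, g (i * U + j) x‖ₑ ^ (2 * b) :=
      (pow_le_pow_left' (enorm_sum_le _ _) _).trans (enn_pow_sum hQ1 _ _)
    refine (mul_le_mul' h5 h6).trans (le_of_eq ?_)
    rw [← sum_mul_sum]
    ring
  calc ∫⁻ x, ‖∑ j ∈ range (P * R), f j x‖ₑ ^ (2 * a) * ‖∑ j ∈ range (Q * U), g j x‖ₑ ^ (2 * b)
      ≤ ∫⁻ x, (P : ENNReal) ^ (2 * a) * (Q : ENNReal) ^ (2 * b) *
        ∑ i ∈ range P, ∑ l ∈ range Q, ‖∑ j ∈ range R, f (i * R + j) x‖ₑ ^ (2 * a) *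
          ‖∑ j ∈ range U, g (l * U + j) x‖ₑ ^ (2 * b) := lintegral_mono pt
    _ = (P : ENNReal) ^ (2 * a) * (Q : ENNReal) ^ (2 * b) *
        ∑ i ∈ range P, ∑ l ∈ range Q, ∫⁻ x, ‖∑ j ∈ range R, f (i * R + j) x‖ₑ ^ (2 * a) *
          ‖∑ j ∈ range U, g (l * U + j) x‖ₑ ^ (2 * b) := by
        rw [lintegral_const_mul']
        · congr 1
          rw [lintegral_finsetSum' _ (fun i hi => ?_)]
          · refine sum_congr rfl fun i hi => ?_
            rw [lintegral_finsetSum' _ (fun l hl => ?_)]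
            exact ((hcf i (mem_range.1 hi)).mul (hcg l (mem_range.1 hl))).aemeasurable
          · refine Finset.aemeasurable_fun_sum _ fun l hl => ?_
            exact ((hcf i (mem_range.1 hi)).mul (hcg l (mem_range.1 hl))).aemeasurable
        · finiteness
    _ ≤ (P : ENNReal) ^ (2 * a) * (Q : ENNReal) ^ (2 * b) *
        ∑ i ∈ range P, ∑ l ∈ range Q, ENNReal.ofReal M *
          (∑ j ∈ range R, NN s (f (i * R + j))) ^ a * (∑ j ∈ range U, NN s (g (l * U + j))) ^ b := by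
        gcongr with i hi l hl
        exact key i (mem_range.1 hi) l (mem_range.1 hl)
    _ = ENNReal.ofReal M * (((P : ENNReal) ^ (2 * a) *
          ∑ i ∈ range P, (∑ j ∈ range R, NN s (f (i * R + j))) ^ a) *
          ((Q : ENNReal) ^ (2 * b) * ∑ l ∈ range Q, (∑ j ∈ range U, NN s (g (l * U + j))) ^ b)) := by
        simp only [mul_assoc (ENNReal.ofReal M), ← mul_sum]
        rw [← sum_mul]
        ring
    _ ≤ ENNReal.ofReal M * (((P : ENNReal) ^ (2 * s) * (∑ j ∈ range (P * R), NN s (f j)) ^ a) *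
          ((Q : ENNReal) ^ (2 * s) * (∑ j ∈ range (Q * U), NN s (g j)) ^ b)) := by
        rw [sum_range_split P R (fun j => NN s (f j)), sum_range_split Q U (fun j => NN s (g j))]
        gcongr ENNReal.ofReal M * (?_ * ?_)
        · refine (mul_le_mul_right (enn_sum_pow P _ a) _).trans ?_
          rw [← mul_assoc]
          exact mul_le_mul_left (enn_kappa hP1 hs hm) _
        · refine (mul_le_mul_right (enn_sum_pow Q _ b) _).trans ?_
          rw [← mul_assoc]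
          exact mul_le_mul_left (enn_kappa hQ1 hs (by omega)) _
    _ = ENNReal.ofReal (2 ^ (2 * s * ((A' - A) + (B' - B))) * M) *
          (∑ j ∈ range (P * R), NN s (f j)) ^ a * (∑ j ∈ range (Q * U), NN s (g j)) ^ b := by
        rw [ENNReal.ofReal_mul (by positivity), ENNReal.ofReal_pow (by norm_num),
          mul_add, pow_add, hP, hQ]
        push_cast
        rw [← pow_mul, ← pow_mul, ENNReal.ofReal_ofNat, mul_comm (A' - A), mul_comm (B' - B)]
        ring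

end Pool.Agent.DL
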