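import Pool.Agent.Helper13.DL.DL18
import Pool.Agent.Helper19.DL.Mean
import Pool.Agent.Helper21.DL.Transition

/-!
# DL-19a: the mean value over a small box, nonnegative coefficients (helper16)
-/

set_option autoImplicit false

namespace Pool.Agent.DL

open MeasureTheory Finset

/-- DL-17 with its hypotheses discharged -/
theorem sr_transition (m k r : ℕ) (hr : r < m) (C₀ : ℝ) : ∃ K : ℝ, 0 < K ∧
    ∀ (N n₀ H : ℕ), 1 ≤ N → N ≤ 4 * n₀ → n₀ + H ≤ N → (H : ℝ) ^ (m + 1) ≤ C₀ * (N : ℝ) ^ (m - r) →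
      ∀ S ⊆ Finset.Ioc n₀ (n₀ + H), ∀ a : ℕ → ℝ, (∀ j, 0 ≤ a j) → ∀ R : ℝ, (tri m : ℝ) ≤ R → 1 ≤ R →
        QQ (tri m) (ex k r m) (bb ((N : ℝ) ^ k) R r m) S (fun j => (a j : ℂ)) *
            ENNReal.ofReal (R * (N : ℝ) ^ k) ≤
          ENNReal.ofReal K *
            QQ (tri m) (ex k (r + 1) m) (bb ((N : ℝ) ^ k) R (r + 1) m) S (fun j => (a j : ℂ)) :=
  transition_of (fun hs e b hb S a => QQ_expand hs e b hb S a)
    (fun hs e b hb S a c => QQ_shift hs e b hb S a c) m k r hr C₀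

/-- the levels of the arcs -/
def srP (m N r : ℕ) : ℕ := if r = 0 then 1 else Nat.log 2 (N ^ r) / m

theorem srP_mono {m N : ℕ} (hm : 1 ≤ m) (hN : 2 ^ m ≤ N) (r : ℕ) : srP m N r ≤ srP m N (r + 1) := by
  have hN0 : N ≠ 0 := by
    have : 0 < 2 ^ m := by positivity
    omega
  have hN1 : 1 ≤ N := by omega
  unfold srP
  rw [if_neg (by omega : ¬ r + 1 = 0)]
  split_ifs with h
  · subst h
    rw [zero_add, pow_one, Nat.le_div_iff_mul_le (by omega), one_mul]
    exact Nat.le_log_of_pow_le (by norm_num) hN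
  · apply Nat.div_le_div_right
    apply Nat.log_mono_right
    exact Nat.pow_le_pow_right hN1 (by omega)

theorem srP_le {m N : ℕ} (hN : 1 ≤ N) (r : ℕ) :
    2 ^ (m * srP m N (r + 1)) ≤ N ^ (r + 1) := by
  unfold srP
  rw [if_neg (by omega : ¬ r + 1 = 0)]
  calc 2 ^ (m * (Nat.log 2 (N ^ (r + 1)) / m)) ≤ 2 ^ Nat.log 2 (N ^ (r + 1)) :=
        Nat.pow_le_pow_right (by norm_num) (Nat.mul_div_le _ _)
    _ ≤ N ^ (r + 1) := Nat.pow_log_le_self 2 (by positivity)

theorem srP_lt {m N : ℕ} (hm : 1 ≤ m) (r : ℕ) :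
    N ^ (r + 1) < 2 ^ (m * (srP m N (r + 1) + 1)) := by
  unfold srP
  rw [if_neg (by omega : ¬ r + 1 = 0)]
  calc N ^ (r + 1) < 2 ^ (Nat.log 2 (N ^ (r + 1)) + 1) := Nat.lt_pow_succ_log_self (by norm_num) _
    _ ≤ _ := Nat.pow_le_pow_right (by norm_num) (Nat.lt_mul_div_succ _ (by omega))

theorem sr_cut_subset {S : Finset ℕ} {N : ℕ} {u v : ℝ} (hu : 0 ≤ u) :
    cut S N u v ⊆ Ioc ⌊u * N⌋₊ ⌊v * N⌋₊ := by
  intro n hn
  unfold cut at hn
  rw [mem_filter] at hn
  obtain ⟨_, h1, h2⟩ := hn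
  rw [mem_Ioc]
  have hu' : 0 ≤ u * N := by positivity
  constructor
  · have := Nat.floor_le hu'
    have h3 : (⌊u * N⌋₊ : ℝ) < n := lt_of_le_of_lt this h1
    exact_mod_cast h3
  · exact Nat.le_floor h2

/-- sums over the pieces -/
theorem sr_sum_cut {S : Finset ℕ} {N : ℕ} {u δ w : ℝ} (hδ : 0 ≤ δ) (Q : ℕ) (hw : Q * δ ≤ w)
    (a : ℕ → ℝ) :
    ∑ j ∈ range Q, ∑ n ∈ cut S N (u + j * δ) (u + (j + 1) * δ), a n ^ 2 ≤
      ∑ n ∈ cut S N u (u + w), a n ^ 2 := by
  have hN : (0 : ℝ) ≤ N := Nat.cast_nonneg N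
  rw [← sum_biUnion]
  · apply sum_le_sum_of_subset_of_nonneg
    · intro n hn
      rw [mem_biUnion] at hn
      obtain ⟨j, hj, hn⟩ := hn
      unfold cut at hn ⊢
      rw [mem_filter] at hn ⊢
      obtain ⟨h0, h1, h2⟩ := hn
      have hj1 : ((j : ℝ) + 1) ≤ Q := by exact_mod_cast mem_range.1 hj
      have hj0 : (0 : ℝ) ≤ j * δ := by positivity
      have hj2 : ((j : ℝ) + 1) * δ ≤ Q * δ := mul_le_mul_of_nonneg_right hj1 hδ
      refine ⟨h0, lt_of_le_of_lt ?_ h1, h2.trans ?_⟩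
      · exact mul_le_mul_of_nonneg_right (by linarith) hN
      · exact mul_le_mul_of_nonneg_right (by linarith) hN
    · intro n _ _
      positivity
  · intro j _ j' _ hjj
    have key : ∀ i i' : ℕ, i < i' → Disjoint (cut S N (u + i * δ) (u + (i + 1) * δ))
        (cut S N (u + i' * δ) (u + (i' + 1) * δ)) := by
      intro i i' hii
      rw [Finset.disjoint_left]
      intro n h1 h2
      unfold cut at h1 h2
      rw [mem_filter] at h1 h2
      have h3 : ((i : ℝ) + 1) ≤ i' := by exact_mod_cast hii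
      have h4 : ((i : ℝ) + 1) * δ ≤ i' * δ := mul_le_mul_of_nonneg_right h3 hδ
      have h5 : (u + (i + 1) * δ) * N ≤ (u + i' * δ) * N :=
        mul_le_mul_of_nonneg_right (by linarith) hN
      linarith [h1.2.2, h2.2.1]
    rcases lt_or_gt_of_ne hjj with h | h
    · exact key j j' h
    · exact (key j' j h).symm

/-- the main induction -/
theorem sr_main (m k : ℕ) (hm : 1 ≤ m) (hcurve : CurveThm m) (ε : ℝ) (hε : 0 < ε) (c : ℕ)
    (hc : c ≤ m) : ∃ K : ℝ, 0 < K ∧
    ∀ N : ℕ, 4 ≤ N → 2 ^ m ≤ N → ∀ a : ℕ → ℝ, (∀ j, 0 ≤ a j) → ∀ R : ℝ, (N : ℝ) ^ m ≤ R →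
      (tri m : ℝ) ≤ R → ∀ (S : Finset ℕ) (u : ℝ), 1 / 2 ≤ u →
      u + (1 / 2) ^ srP m N (m - c) ≤ 1 →
      QQ (tri m) (ex k (m - c) m) (bb ((N : ℝ) ^ k) R (m - c) m)
        (cut S N u (u + (1 / 2) ^ srP m N (m - c))) (fun j => (a j : ℂ)) ≤
      ENNReal.ofReal (K * (N : ℝ) ^ (ε * c) * (R ^ (m - c) * (((N : ℝ) ^ k)⁻¹) ^ c) *
        (∑ j ∈ cut S N u (u + (1 / 2) ^ srP m N (m - c)), a j ^ 2) ^ tri m) := by
  have hs : 1 ≤ tri m := by
    have : 2 * tri m = m * (m + 1) := Nat.two_mul_div_two_of_even (Nat.even_mul_succ_self m)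
    by_contra h
    have h0 : tri m = 0 := by omega
    rw [h0] at this
    have : 1 ≤ m * (m + 1) := Nat.one_le_iff_ne_zero.2 (by positivity)
    omega
  have hsR : (0 : ℝ) < tri m := by exact_mod_cast hs
  set s := tri m with hsdef
  induction c with
  | zero =>
    refine ⟨2 ^ s, by positivity, ?_⟩
    intro N hN4 hN2 a ha R hR1 hR2 S u hu1 hu2
    rw [Nat.sub_zero] at *
    have hNpos : (0 : ℝ) < N := by exact_mod_cast (by omega : 0 < N)
    have hRpos : 0 < R := lt_of_lt_of_le (by positivity) hR1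
    have hb : ∀ i : Fin m, 0 < bb ((N : ℝ) ^ k) R m m i := by
      intro i
      unfold bb
      rw [if_pos i.2]
      positivity
    refine (QQ_trivial hs _ _ hb _ _).trans ?_
    apply ENNReal.ofReal_le_ofReal
    have hprod : ∏ i : Fin m, (bb ((N : ℝ) ^ k) R m m i)⁻¹ = R ^ m := by
      have : ∀ i : Fin m, (bb ((N : ℝ) ^ k) R m m i)⁻¹ = R := by
        intro i
        unfold bb
        rw [if_pos i.2, one_div, inv_inv]
      rw [prod_congr rfl fun i _ => this i, prod_const, card_univ, Fintype.card_fin]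
    rw [hprod]
    obtain ⟨m', rfl⟩ : ∃ m', m = m' + 1 := ⟨m - 1, by omega⟩
    have h1 := srP_lt (m := m' + 1) (N := N) hm m'
    set p := srP (m' + 1) N (m' + 1) with hp
    have h2 : N < 2 ^ (p + 1) := by
      have h3 : N ^ (m' + 1) < (2 ^ (p + 1)) ^ (m' + 1) := by
        rw [← pow_mul, mul_comm (p + 1)]
        exact h1
      exact lt_of_pow_lt_pow_left₀ _ (by positivity) h3
    have h4 : (1 / 2 : ℝ) ^ p * N < 2 := by
      have h5 : (N : ℝ) < 2 ^ (p + 1) := by exact_mod_cast h2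
      have h6 : (0 : ℝ) < (1 / 2) ^ p := by positivity
      calc (1 / 2 : ℝ) ^ p * N < (1 / 2) ^ p * 2 ^ (p + 1) := mul_lt_mul_of_pos_left h5 h6
        _ = 2 := by rw [pow_succ, ← mul_assoc, ← mul_pow]; norm_num
    have hcard : ((cut S N u (u + (1 / 2) ^ p)).card : ℝ) ≤ 2 := by
      have h7 := card_le_card (sr_cut_subset (S := S) (N := N) (u := u) (v := u + (1 / 2) ^ p)
        (by linarith))
      rw [Nat.card_Ioc] at h7
      have h8 : ⌊(u + (1 / 2) ^ p) * N⌋₊ ≤ ⌊u * N⌋₊ + 2 := by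
        have h9 := Nat.lt_floor_add_one (u * N)
        have h10 : ⌊(u + (1 / 2) ^ p) * N⌋₊ < ⌊u * N⌋₊ + 3 := by
          rw [Nat.floor_lt (by positivity)]
          push_cast
          nlinarith
        omega
      have : (cut S N u (u + (1 / 2) ^ p)).card ≤ 2 := by omega
      exact_mod_cast this
    set T := ∑ j ∈ cut S N u (u + (1 / 2) ^ p), a j ^ 2 with hT
    have hT0 : 0 ≤ T := sum_nonneg fun j _ => sq_nonneg _
    have hT' : ∑ j ∈ cut S N u (u + (1 / 2) ^ p), ‖(a j : ℂ)‖ ^ 2 = T := by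
      refine sum_congr rfl fun j _ => ?_
      rw [Complex.norm_real, Real.norm_eq_abs, sq_abs]
    rw [hT']
    simp only [Nat.cast_zero, mul_zero, Real.rpow_zero, mul_one, pow_zero]
    calc (((cut S N u (u + (1 / 2) ^ p)).card : ℝ) * T) ^ s * R ^ (m' + 1)
        ≤ (2 * T) ^ s * R ^ (m' + 1) := by gcongr
      _ = 2 ^ s * R ^ (m' + 1) * T ^ s := by rw [mul_pow]; ring
  | succ c ih =>
    obtain ⟨K₃, hK₃, hA⟩ := ih (by omega)
    set r := m - (c + 1) with hr
    have hr1 : m - c = r + 1 := by omega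
    have hrm : r < m := by omega
    obtain ⟨K₁, hK₁, hst⟩ := stage m k r hrm hcurve ε hε
    obtain ⟨K₂, hK₂, htr⟩ := sr_transition m k r hrm (4 ^ m)
    refine ⟨K₁ * (K₂ * K₃), by positivity, ?_⟩
    intro N hN4 hN2 a ha R hR1 hR2 S u hu1 hu2
    have hN1 : 1 ≤ N := by omega
    have hNpos : (0 : ℝ) < N := by exact_mod_cast (by omega : 0 < N)
    have hN1' : (1 : ℝ) ≤ N := by exact_mod_cast hN1
    have hR1' : 1 ≤ R := le_trans (one_le_pow₀ hN1') hR1
    have hRpos : 0 < R := by linarith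
    have hL : (0 : ℝ) < (N : ℝ) ^ k := by positivity
    have hA' := hA N hN4 hN2 a ha R hR1 hR2 S
    rw [hr1] at hA'
    set p := srP m N r with hp
    set p' := srP m N (r + 1) with hp'
    have hpp : p ≤ p' := srP_mono hm hN2 r
    set q := p' - p with hq
    have hpq : p + q = p' := by omega
    have hle := srP_le (m := m) hN1 r
    have hlt := srP_lt (N := N) hm r
    rw [← hp'] at hle hlt
    have h2p : (2 : ℝ) ^ p' ≤ N := by
      have h1 : (2 ^ p') ^ m ≤ N ^ m := by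
        calc (2 ^ p') ^ m = 2 ^ (m * p') := by rw [← pow_mul, mul_comm]
          _ ≤ N ^ (r + 1) := hle
          _ ≤ N ^ m := Nat.pow_le_pow_right hN1 hrm
      have h2 : 2 ^ p' ≤ N := le_of_pow_le_pow_left₀ (by omega) (by positivity) h1
      exact_mod_cast h2
    have hstage := hst N hN1 R hR1 p q u hu1 hu2 (by rw [hpq]; exact hle) S (fun j => (a j : ℂ))
    rw [hpq] at hstage
    set δ : ℝ := (1 / 2) ^ p' with hδ
    have hδ0 : 0 < δ := by positivity
    have hQδ : ((2 ^ q : ℕ) : ℝ) * δ = (1 / 2) ^ p := by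
      rw [hδ, ← hpq, pow_add]
      push_cast
      have : (2 : ℝ) ^ q * (1 / 2) ^ q = 1 := by rw [← mul_pow]; norm_num
      calc (2 : ℝ) ^ q * ((1 / 2) ^ p * (1 / 2) ^ q) = (1 / 2) ^ p * (2 ^ q * (1 / 2) ^ q) := by ring
        _ = _ := by rw [this, mul_one]
    -- the constant for the pieces
    set cc : ℝ := K₂ * K₃ * (N : ℝ) ^ (ε * c) * (R ^ r * (((N : ℝ) ^ k)⁻¹) ^ (c + 1)) with hcc
    have hcc0 : 0 ≤ cc := by positivity
    set T : ℕ → ℝ := fun j => ∑ n ∈ cut S N (u + j * δ) (u + (j + 1) * δ), a n ^ 2 with hT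
    have hT0 : ∀ j, 0 ≤ T j := fun j => sum_nonneg fun n _ => sq_nonneg _
    have hpiece : ∀ j ∈ range (2 ^ q), (QQ s (ex k r m) (bb ((N : ℝ) ^ k) R r m)
        (cut S N (u + j * δ) (u + (j + 1) * δ)) (fun j => (a j : ℂ))) ^ (1 / (s : ℝ)) ≤
        ENNReal.ofReal (cc ^ (1 / (s : ℝ)) * T j) := by
      intro j hj
      have hj1 : ((j : ℝ) + 1) ≤ ((2 ^ q : ℕ) : ℝ) := by exact_mod_cast mem_range.1 hj
      have hj0 : (0 : ℝ) ≤ j * δ := by positivity
      have hj2 : ((j : ℝ) + 1) * δ ≤ (1 / 2) ^ p := by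
        rw [← hQδ]
        exact mul_le_mul_of_nonneg_right hj1 hδ0.le
      have eu : u + (j + 1) * δ = (u + j * δ) + δ := by ring
      have hv1 : 1 / 2 ≤ u + j * δ := by linarith
      have hv2 : (u + j * δ) + δ ≤ 1 := by
        rw [← eu]
        linarith
      have h1 := hA' (u + j * δ) hv1 hv2
      rw [← eu] at h1
      have h1 : QQ s (ex k (r + 1) m) (bb ((N : ℝ) ^ k) R (r + 1) m)
          (cut S N (u + j * δ) (u + (j + 1) * δ)) (fun j => (a j : ℂ)) ≤
          ENNReal.ofReal (K₃ * (N : ℝ) ^ (ε * c) * (R ^ (r + 1) * (((N : ℝ) ^ k)⁻¹) ^ c) *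
            T j ^ s) := h1
      set v := u + j * δ with hv
      set n₀ := ⌊v * N⌋₊ with hn₀
      set n₁ := ⌊(v + δ) * N⌋₊ with hn₁
      have hvN : 0 ≤ v * N := by positivity
      have hn01 : n₀ ≤ n₁ := Nat.floor_le_floor (mul_le_mul_of_nonneg_right (by linarith) hNpos.le)
      have hn0 : N ≤ 4 * n₀ := by
        have h2 := Nat.lt_floor_add_one (v * N)
        have h3 : (N : ℝ) / 2 ≤ v * N := by nlinarith
        have h4 : (4 : ℝ) ≤ N := by exact_mod_cast hN4
        have h5 : (N : ℝ) / 2 < n₀ + 1 := lt_of_le_of_lt h3 h2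
        have h6 : (N : ℝ) < 2 * (n₀ + 1) := by linarith
        have h7 : N < 2 * (n₀ + 1) := by exact_mod_cast h6
        omega
      have hn1N : n₁ ≤ N := by
        have h2 : (v + δ) * N ≤ N := by nlinarith
        have h3 := Nat.floor_le_floor h2
        rwa [Nat.floor_natCast] at h3
      have hH0 : ((n₁ - n₀ : ℕ) : ℝ) ≤ δ * N + 1 := by
        rw [Nat.cast_sub hn01]
        have h2 : (n₁ : ℝ) ≤ (v + δ) * N := Nat.floor_le (by positivity)
        have h3 := Nat.lt_floor_add_one (v * N)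
        rw [← hn₀] at h3
        linarith
      have hδN : (δ * N) ^ m ≤ 2 ^ m * (N : ℝ) ^ (m - (r + 1)) := by
        have h2 : (N : ℝ) ^ (r + 1) < 2 ^ (m * (p' + 1)) := by exact_mod_cast hlt
        have h3 : (N : ℝ) ^ m = (N : ℝ) ^ (m - (r + 1)) * (N : ℝ) ^ (r + 1) := by
          rw [← pow_add]; congr 1; omega
        have h4 : δ ^ m * 2 ^ (m * (p' + 1)) = 2 ^ m := by
          rw [hδ, ← pow_mul, mul_add, mul_one, pow_add, mul_comm p' m, ← mul_assoc, ← mul_pow]
          norm_num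
        rw [mul_pow, h3]
        calc δ ^ m * ((N : ℝ) ^ (m - (r + 1)) * (N : ℝ) ^ (r + 1))
            = (N : ℝ) ^ (m - (r + 1)) * (δ ^ m * (N : ℝ) ^ (r + 1)) := by ring
          _ ≤ (N : ℝ) ^ (m - (r + 1)) * (δ ^ m * 2 ^ (m * (p' + 1))) := by gcongr
          _ = 2 ^ m * (N : ℝ) ^ (m - (r + 1)) := by rw [h4]; ring
      have hH : ((n₁ - n₀ : ℕ) : ℝ) ^ (m + 1) ≤ 4 ^ m * (N : ℝ) ^ (m - r) := by
        have h2 : ((n₁ - n₀ : ℕ) : ℝ) ≤ N := by
          have : n₁ - n₀ ≤ N := by omega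
          exact_mod_cast this
        have h3 : (δ * N + 1) ^ m ≤ 4 ^ m * (N : ℝ) ^ (m - (r + 1)) := by
          have h5 : (1 : ℝ) ≤ (N : ℝ) ^ (m - (r + 1)) := one_le_pow₀ hN1'
          rcases le_total (δ * N) 1 with h4 | h4
          · calc (δ * N + 1) ^ m ≤ 2 ^ m := by
                  apply pow_le_pow_left₀ (by positivity)
                  linarith
              _ ≤ 4 ^ m * 1 := by
                  rw [mul_one]
                  exact pow_le_pow_left₀ (by norm_num) (by norm_num) _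
              _ ≤ _ := by gcongr
          · calc (δ * N + 1) ^ m ≤ (2 * (δ * N)) ^ m := by
                  apply pow_le_pow_left₀ (by positivity)
                  linarith
              _ = 2 ^ m * (δ * N) ^ m := by rw [mul_pow]
              _ ≤ 2 ^ m * (2 ^ m * (N : ℝ) ^ (m - (r + 1))) := by gcongr
              _ = _ := by rw [← mul_assoc, ← mul_pow]; norm_num
        have h6 : (N : ℝ) ^ (m - r) = (N : ℝ) ^ (m - (r + 1)) * N := by
          rw [← pow_succ]; congr 1; omega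
        rw [pow_succ, h6, ← mul_assoc]
        refine mul_le_mul ?_ h2 (by positivity) (by positivity)
        exact (pow_le_pow_left₀ (by positivity) hH0 _).trans h3
      have h2 := htr N n₀ (n₁ - n₀) hN1 hn0 (by omega) hH
        (cut S N v (u + (j + 1) * δ)) (by
          rw [Nat.add_sub_cancel' hn01, eu]
          exact sr_cut_subset (by linarith)) a ha R hR2 hR1'
      have hRL : 0 < R * (N : ℝ) ^ k := by positivity
      have h3 : QQ s (ex k r m) (bb ((N : ℝ) ^ k) R r m)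
          (cut S N v (u + (j + 1) * δ)) (fun j => (a j : ℂ)) ≤ ENNReal.ofReal (cc * T j ^ s) := by
        calc QQ s (ex k r m) (bb ((N : ℝ) ^ k) R r m)
              (cut S N v (u + (j + 1) * δ)) (fun j => (a j : ℂ))
            = QQ s (ex k r m) (bb ((N : ℝ) ^ k) R r m)
              (cut S N v (u + (j + 1) * δ)) (fun j => (a j : ℂ)) *
                ENNReal.ofReal (R * (N : ℝ) ^ k) * ENNReal.ofReal (R * (N : ℝ) ^ k)⁻¹ := by
              rw [mul_assoc, ← ENNReal.ofReal_mul hRL.le, mul_inv_cancel₀ hRL.ne',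
                ENNReal.ofReal_one, mul_one]
          _ ≤ ENNReal.ofReal K₂ * ENNReal.ofReal (K₃ * (N : ℝ) ^ (ε * c) *
                (R ^ (r + 1) * (((N : ℝ) ^ k)⁻¹) ^ c) * T j ^ s) *
                  ENNReal.ofReal (R * (N : ℝ) ^ k)⁻¹ := by
              exact mul_le_mul_left (h2.trans (mul_le_mul_right h1 _)) _
          _ = ENNReal.ofReal (cc * T j ^ s) := by
              rw [← ENNReal.ofReal_mul hK₂.le, ← ENNReal.ofReal_mul (by
                have := hT0 j
                positivity)]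
              congr 1
              rw [hcc, pow_succ, pow_succ]
              field_simp
      calc (QQ s (ex k r m) (bb ((N : ℝ) ^ k) R r m)
            (cut S N v (u + (j + 1) * δ)) (fun j => (a j : ℂ))) ^ (1 / (s : ℝ))
          ≤ (ENNReal.ofReal (cc * T j ^ s)) ^ (1 / (s : ℝ)) :=
            ENNReal.rpow_le_rpow h3 (by positivity)
        _ = ENNReal.ofReal (cc ^ (1 / (s : ℝ)) * T j) := by
            rw [ENNReal.ofReal_rpow_of_nonneg (by have := hT0 j; positivity) (by positivity),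
              Real.mul_rpow hcc0 (by have := hT0 j; positivity), one_div,
              Real.pow_rpow_inv_natCast (hT0 j) (by omega)]
    refine hstage.trans ?_
    set TT := ∑ j ∈ cut S N u (u + (1 / 2) ^ p), a j ^ 2 with hTT
    have hsum : ∑ j ∈ range (2 ^ q), T j ≤ TT := by
      refine sr_sum_cut hδ0.le (2 ^ q) ?_ a
      rw [hQδ]
    have hTT0 : 0 ≤ TT := sum_nonneg fun j _ => sq_nonneg _
    calc ENNReal.ofReal (K₁ * 2 ^ (ε * q)) * (∑ j ∈ range (2 ^ q),
          (QQ s (ex k r m) (bb ((N : ℝ) ^ k) R r m)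
            (cut S N (u + j * δ) (u + (j + 1) * δ)) (fun j => (a j : ℂ))) ^ (1 / (s : ℝ))) ^ s
        ≤ ENNReal.ofReal (K₁ * (N : ℝ) ^ ε) *
          (∑ j ∈ range (2 ^ q), ENNReal.ofReal (cc ^ (1 / (s : ℝ)) * T j)) ^ s := by
          refine mul_le_mul' ?_ (pow_le_pow_left' (sum_le_sum hpiece) _)
          apply ENNReal.ofReal_le_ofReal
          apply mul_le_mul_of_nonneg_left _ hK₁.le
          calc (2 : ℝ) ^ (ε * q) = ((2 : ℝ) ^ q) ^ ε := by
                rw [mul_comm, Real.rpow_mul (by norm_num), Real.rpow_natCast]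
            _ ≤ (N : ℝ) ^ ε := by
                apply Real.rpow_le_rpow (by positivity) _ hε.le
                exact (pow_le_pow_right₀ (by norm_num) (by omega)).trans h2p
      _ ≤ ENNReal.ofReal (K₁ * (N : ℝ) ^ ε) * (ENNReal.ofReal (cc ^ (1 / (s : ℝ)) * TT)) ^ s := by
          refine mul_le_mul_right (pow_le_pow_left' ?_ _) _
          rw [← ENNReal.ofReal_sum_of_nonneg fun j _ => by have := hT0 j; positivity]
          apply ENNReal.ofReal_le_ofReal
          rw [← mul_sum]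
          gcongr
      _ = ENNReal.ofReal (K₁ * (K₂ * K₃) * (N : ℝ) ^ (ε * ((c + 1 : ℕ) : ℝ)) *
            (R ^ r * (((N : ℝ) ^ k)⁻¹) ^ (c + 1)) * TT ^ s) := by
          rw [← ENNReal.ofReal_pow (by positivity), ← ENNReal.ofReal_mul (by positivity)]
          congr 1
          have e1 : (N : ℝ) ^ (ε * ((c + 1 : ℕ) : ℝ)) = (N : ℝ) ^ (ε * c) * (N : ℝ) ^ ε := by
            rw [← Real.rpow_add hNpos]
            congr 1
            push_cast
            ring
          rw [mul_pow, one_div, Real.rpow_inv_natCast_pow hcc0 (by omega), e1, hcc]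
          ring

theorem star_real_of (m k : ℕ) (hm : 1 ≤ m) (hcurve : CurveThm m) (ε : ℝ) (hε : 0 < ε) :
    ∃ K : ℝ, 0 < K ∧ ∀ N : ℕ, 1 ≤ N → ∀ a : ℕ → ℝ, (∀ j, 0 ≤ a j) →
      QQ (tri m) (ex k 0 m) (fun _ => (N : ℝ) ^ k) ((range (N + 1)).filter (fun j => N < 2 * j))
        (fun j => (a j : ℂ)) ≤ ENNReal.ofReal (K * (N : ℝ) ^ (ε - k * m) *
          (∑ j ∈ (range (N + 1)).filter (fun j => N < 2 * j), a j ^ 2) ^ tri m) := by
  have hs : 1 ≤ tri m := by
    have : 2 * tri m = m * (m + 1) := Nat.two_mul_div_two_of_even (Nat.even_mul_succ_self m)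
    by_contra h
    have h0 : tri m = 0 := by omega
    rw [h0] at this
    have : 1 ≤ m * (m + 1) := Nat.one_le_iff_ne_zero.2 (by positivity)
    omega
  have hm0 : (0 : ℝ) < m := by exact_mod_cast hm
  obtain ⟨K, hK, hmain⟩ := sr_main m k hm hcurve (ε / m) (by positivity) m le_rfl
  set N₀ : ℕ := 4 + 2 ^ m with hN₀
  refine ⟨K + (N₀ + 1 : ℝ) ^ tri m, by positivity, fun N hN a ha => ?_⟩
  set s := tri m with hsdef
  set S := (range (N + 1)).filter (fun j => N < 2 * j) with hS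
  have hNpos : (0 : ℝ) < N := by exact_mod_cast (by omega : 0 < N)
  have hN1 : (1 : ℝ) ≤ N := by exact_mod_cast hN
  have hT0 : 0 ≤ ∑ j ∈ S, a j ^ 2 := sum_nonneg fun j _ => sq_nonneg _
  set T := ∑ j ∈ S, a j ^ 2 with hT
  have e1 : (N : ℝ) ^ (ε - k * m) = (N : ℝ) ^ ε * (((N : ℝ) ^ k)⁻¹) ^ m := by
    rw [Real.rpow_sub hNpos, div_eq_mul_inv]
    congr 1
    rw [inv_pow, ← pow_mul, ← Real.rpow_natCast]
    push_cast
    rfl
  have hNε : 1 ≤ (N : ℝ) ^ ε := Real.one_le_rpow hN1 hε.le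
  by_cases hbig : 4 ≤ N ∧ 2 ^ m ≤ N
  · have h1 := hmain N hbig.1 hbig.2 a ha ((N : ℝ) ^ m + s) (by
      have : (0 : ℝ) ≤ s := Nat.cast_nonneg _
      linarith) (by
      have : (0 : ℝ) ≤ (N : ℝ) ^ m := by positivity
      linarith) S (1 / 2) le_rfl (by
      rw [Nat.sub_self]
      unfold srP
      norm_num)
    rw [Nat.sub_self] at h1
    have e2 : cut S N (1 / 2) (1 / 2 + (1 / 2) ^ srP m N 0) = S := by
      unfold cut srP
      rw [if_pos rfl, pow_one, filter_eq_self]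
      intro j hj
      rw [hS, mem_filter, mem_range] at hj
      have h2 : (N : ℝ) < 2 * j := by exact_mod_cast hj.2
      have h3 : (j : ℝ) ≤ N := by exact_mod_cast (by omega : j ≤ N)
      constructor
      · linarith
      · rw [show (1 / 2 : ℝ) + 1 / 2 = 1 by norm_num, one_mul]
        exact h3
    have e3 : bb ((N : ℝ) ^ k) ((N : ℝ) ^ m + s) 0 m = fun _ => (N : ℝ) ^ k := by
      funext i
      unfold bb
      simp
    rw [e2, e3] at h1
    refine h1.trans ?_
    apply ENNReal.ofReal_le_ofReal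
    rw [e1]
    have e4 : ε / m * m = ε := by field_simp
    rw [e4, pow_zero, one_mul]
    have h5 : 0 ≤ (N₀ + 1 : ℝ) ^ s := by positivity
    rw [← mul_assoc]
    gcongr
    linarith
  · have hNlt : N ≤ N₀ := by
      by_contra h
      apply hbig
      have := Nat.one_le_two_pow (n := m)
      constructor <;> omega
    refine (QQ_trivial hs _ _ (fun _ => by positivity) _ _).trans ?_
    apply ENNReal.ofReal_le_ofReal
    have hT' : ∑ j ∈ S, ‖(a j : ℂ)‖ ^ 2 = T := by
      refine sum_congr rfl fun j _ => ?_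
      rw [Complex.norm_real, Real.norm_eq_abs, sq_abs]
    rw [hT', prod_const, card_univ, Fintype.card_fin, e1]
    have hcard : (S.card : ℝ) ≤ N₀ + 1 := by
      have h2 : S.card ≤ N₀ + 1 := by
        refine (card_filter_le _ _).trans ?_
        rw [card_range]
        omega
      exact_mod_cast h2
    calc ((S.card : ℝ) * T) ^ s * ((N : ℝ) ^ k)⁻¹ ^ m
        ≤ ((N₀ + 1 : ℝ) * T) ^ s * ((N : ℝ) ^ k)⁻¹ ^ m := by gcongr
      _ = (N₀ + 1 : ℝ) ^ s * (1 * ((N : ℝ) ^ k)⁻¹ ^ m) * T ^ s := by rw [mul_pow]; ring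
      _ ≤ (K + (N₀ + 1 : ℝ) ^ s) * ((N : ℝ) ^ ε * ((N : ℝ) ^ k)⁻¹ ^ m) * T ^ s := by
          gcongr
          linarith

end Pool.Agent.DL
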